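import Pool.Agent.H24.Par5

set_option autoImplicit false

namespace Pool.Agent.Results.MP_4249f6_lc.IffPeqNP
open Pool.Agent.H11.PT Pool.Agent.H24.Par

theorem result : (HardOn Valid (Big id) ↔ PeqNP) ∧
    ((∀ γ : ℕ → ℕ, (∀ n, 1 ≤ n → 1 ≤ γ n ∧ γ n ≤ n) → HardOn Valid (Big γ)) ↔ PeqNP) ∧
    (TuringHard id → ∀ L : List Bool → Prop, InNP L → InPpoly L) :=
  ⟨⟨hard_id, fun h => hard_of h rfl⟩, ⟨fun h => hard_id (h id fun _ hn => ⟨hn, le_rfl⟩),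
    fun h γ hγ => hard_of h (le_antisymm (hγ 1 le_rfl).2 (hγ 1 le_rfl).1)⟩, turing⟩

end Pool.Agent.Results.MP_4249f6_lc.IffPeqNP
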